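import Pool.Agent.MWHP.StmtsN

/-! Row TLMN of squad MWHP, part N. -/

set_option autoImplicit false

namespace Pool.Agent.MWHP.H3

open Pool.Agent.Helper14_MV Pool.Agent.Helper2_MV Pool.Agent.MVO Pool.Agent.MWL Pool.Agent.MWS
open Pool.Agent.MWA Pool.Agent.MWH

theorem tlmn (gld : MWS.GldStmt) (dgq : DgqStmt) (blq : MWA.BlqStmt) (tlp : MWS.TlpStmt)
    (d2n : D2nStmt) (mon : MonStmt) (mjn : MjnStmt) : TlmnStmt := by
  intro n β hb hs he
  have hd2 : D2 β := d2n n β hb hs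
  have hmjs : MJSn n β := mjn n β hb.cap he
  have hmj2 : MJ2 β := mon n β hb hmjs
  have hmjb : MJB β := tlp β hd2 hmj2
  have hmjn : MWS.MJN β := blq β hb.cap hmjb
  exact gld β (dgq n β hb.pos hb.ap hb.cap hmjn)

end Pool.Agent.MWHP.H3
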